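import Pool.Agent.Helper69.MA.RC

/-!
# Codes of meager sets inside a transitive model
-/

set_option linter.unusedSectionVars false
set_option linter.unusedVariables false

namespace Pool.Agent.Helper60.MA

open Pool.Agent.Helper96.Fc Cardinal Ordinal
open Pool.Agent.Helper89.FV

/-- the finite sequence of bits with the code `c` -/
def bl69 (c : ℕ) : List Bool := (Encodable.decode c : Option (List Bool)).getD []

theorem exists_bl69 (s : List Bool) : ∃ c, bl69 c = s := ⟨Encodable.encode s, by simp [bl69]⟩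

theorem mem_st69 {x : ℕ → Bool} {n : ℕ} : nat n ∈ st x ↔ x n = true := by
  unfold st
  rw [ZFSet.mem_sep]
  constructor
  · rintro ⟨-, m, hm, h⟩
    rw [nat_inj h]
    exact hm
  · intro h
    exact ⟨nat_mem_om n, n, h, rfl⟩

theorem st_sub69 {x : ℕ → Bool} {z : ZFSet.{0}} (h : z ∈ st x) : z ∈ om := by
  unfold st at h
  rw [ZFSet.mem_sep] at h
  exact h.1

open Classical in
theorem st_of_sub69 {z : ZFSet.{0}} (h : ∀ y ∈ z, y ∈ om) :
    st (fun n => decide (nat n ∈ z)) = z := by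
  ext y
  constructor
  · intro hy
    obtain ⟨n, rfl⟩ := mem_om.1 (st_sub69 hy)
    simpa using mem_st69.1 hy
  · intro hy
    obtain ⟨n, rfl⟩ := mem_om.1 (h y hy)
    exact mem_st69.2 (by simpa using hy)

/-- some point of the `n`-th set of the sequence `F` begins with the string `c` -/
def H169 (F : ZFSet.{0}) (n c : ℕ) : Prop :=
  ∃ C, ZFSet.pair (nat n) C ∈ F ∧ ∃ x, st x ∈ C ∧ Init (bl69 c) x

/-- the table for the bits with value `b` -/
def TB69 (b : Bool) : ℕ → ℕ → ℕ → Prop := fun c i _ => (bl69 c)[i]? = some b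

theorem tab_H169 {N : Set ZFSet.{0}} (hN : IsZFC N) {F : ZFSet.{0}} (hF : F ∈ N)
    (h1 : Tab N (TB69 true)) (h0 : Tab N (TB69 false)) : Tab N fun n c _ => H169 F n c := by
  classical
  obtain ⟨T1, hT1, e1⟩ := h1
  obtain ⟨T0, hT0, e0⟩ := h0
  have ho := om_mem hN
  obtain ⟨P, hP, hP'⟩ := exists_prod hN ho ho
  obtain ⟨Q, hQ, hQ'⟩ := exists_prod hN hP ho
  have hD : Dfb N fun v => ∃ p ∈ N, ∃ m ∈ N, v 0 = ZFSet.pair p m ∧ ∃ n ∈ N, ∃ c ∈ N,
      p = ZFSet.pair n c ∧ ∃ C ∈ N, ZFSet.pair n C ∈ v 1 ∧ ∃ x ∈ C, (∀ y ∈ x, y ∈ v 4) ∧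
        ∀ i ∈ v 4, ((∃ q ∈ N, q = ZFSet.pair c i ∧ ZFSet.pair q (v 5) ∈ v 2) → i ∈ x) ∧
          ((∃ q ∈ N, q = ZFSet.pair c i ∧ ZFSet.pair q (v 5) ∈ v 3) → ¬ i ∈ x) :=
    -- 0 : z, 1 : F, 2 : T1, 3 : T0, 4 : om, 5 : nat 0
    .ex (.ex (.and (.pair hN 2 1 0) (.ex (.ex (.and (.pair hN 3 1 0) (.ex (.and
      -- C 0, c 1, n 2, m 3, p 4, z 5, F 6
      (.pair_mem hN 2 0 6)
      (.exB hN 0 (.and
        -- x 0, C 1, c 2, n 3, m 4, p 5, z 6, F 7, T1 8, T0 9, om 10, nat0 11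
        (.allB hN 0 (.mem 0 11))
        (.allB hN 10 (.and
          -- i 0, x 1, C 2, c 3, ..., F 8, T1 9, T0 10, om 11, nat0 12
          (.imp (.ex (.and (.pair hN 0 4 1) (.pair_mem hN 0 13 10))) (.mem 0 1))
          (.imp (.ex (.and (.pair hN 0 4 1) (.pair_mem hN 0 13 11)))
            (.neg (.mem 0 1))))))))))))))
  obtain ⟨T, hT, hT'⟩ := hD.sep hN (v := cns F (cns T1 (cns T0 (cns om fun _ => nat 0))))
    (cns_mem hF (cns_mem hT1 (cns_mem hT0 (cns_mem ho fun _ => nat_mem hN 0)))) hQ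
  refine ⟨T, hT, fun z => ?_⟩
  rw [hT']
  constructor
  · rintro ⟨hz, p, hpN, m, hmN, h1, n, hnN, c, hcN, h2, C, hCN, h3, x, hx, h4, h5⟩
    have h1 : z = ZFSet.pair p m := h1
    have h3 : ZFSet.pair n C ∈ F := h3
    have h4 : ∀ y ∈ x, y ∈ om := h4
    have h5 : ∀ i ∈ om, ((∃ q ∈ N, q = ZFSet.pair c i ∧ ZFSet.pair q (nat 0) ∈ T1) → i ∈ x) ∧
          ((∃ q ∈ N, q = ZFSet.pair c i ∧ ZFSet.pair q (nat 0) ∈ T0) → ¬ i ∈ x) := h5
    rw [hQ'] at hz
    obtain ⟨a, ha, b, hb, hab⟩ := hz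
    rw [hP'] at ha
    obtain ⟨a1, ha1, a2, ha2, ha12⟩ := ha
    rw [h1] at hab
    obtain ⟨r1, r2⟩ := ZFSet.pair_inj.1 hab
    rw [h2, ha12] at r1
    obtain ⟨r3, r4⟩ := ZFSet.pair_inj.1 r1
    obtain ⟨nn, hnn⟩ := mem_om.1 ha1
    obtain ⟨cc, hcc⟩ := mem_om.1 ha2
    obtain ⟨mm, hmm⟩ := mem_om.1 hb
    rw [hnn] at r3
    rw [hcc] at r4
    rw [hmm] at r2
    subst r2 r3 r4
    refine ⟨nn, cc, mm, ⟨C, h3, fun n => decide (nat n ∈ x), by rw [st_of_sub69 h4]; exact hx, ?_⟩,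
      by rw [h1, h2]⟩
    intro i b hib
    have h6 := h5 (nat i) (nat_mem_om i)
    have hci : ZFSet.pair (nat cc) (nat i) ∈ N := (pair_mem_iff hN).2 ⟨nat_mem hN _, nat_mem hN _⟩
    cases b with
    | true =>
      have := h6.1 ⟨_, hci, rfl, (e1 _).2 ⟨cc, i, 0, hib, rfl⟩⟩
      simpa using this
    | false =>
      have := h6.2 ⟨_, hci, rfl, (e0 _).2 ⟨cc, i, 0, hib, rfl⟩⟩
      simpa using this
  · rintro ⟨n, c, m, ⟨C, hC, x, hx, hi⟩, rfl⟩
    have hnc : ZFSet.pair (nat n) (nat c) ∈ N := (pair_mem_iff hN).2 ⟨nat_mem hN _, nat_mem hN _⟩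
    have hCN : C ∈ N := ((pair_mem_iff hN).1 (hN.trans _ hF _ hC)).2
    refine ⟨(hQ' _).2 ⟨_, (hP' _).2 ⟨_, nat_mem_om n, _, nat_mem_om c, rfl⟩, _, nat_mem_om m, rfl⟩,
      _, hnc, nat m, nat_mem hN m, rfl, nat n, nat_mem hN n, nat c, nat_mem hN c, rfl, C, hCN, hC,
      st x, hx, fun y hy => st_sub69 hy, fun i hi' => ?_⟩
    obtain ⟨i, rfl⟩ := mem_om.1 hi'
    constructor
    · rintro ⟨q, -, rfl, hq⟩
      obtain ⟨k, l, j, hk, he⟩ := (e1 _).1 hq
      obtain ⟨h1, -⟩ := ZFSet.pair_inj.1 he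
      obtain ⟨h2, h3⟩ := ZFSet.pair_inj.1 h1
      have h2 := nat_inj h2
      have h3 := nat_inj h3
      subst h2 h3
      exact mem_st69.2 (hi _ _ hk)
    · rintro ⟨q, -, rfl, hq⟩ hc
      obtain ⟨k, l, j, hk, he⟩ := (e0 _).1 hq
      obtain ⟨h1, -⟩ := ZFSet.pair_inj.1 he
      obtain ⟨h2, h3⟩ := ZFSet.pair_inj.1 h1
      have h2 := nat_inj h2
      have h3 := nat_inj h3
      subst h2 h3
      have := hi _ _ hk
      rw [mem_st69.1 hc] at this
      exact Bool.noConfusion this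

/-! ### The recursion step -/

/-- the string `s ++ t` is not an initial segment of a point of the `n`-th set -/
def Av69 (F : ZFSet.{0}) (s : List Bool) (n : ℕ) (t : List Bool) : Prop :=
  ∀ C, ZFSet.pair (nat n) C ∈ F → ∀ x, st x ∈ C → ¬ Init (s ++ t) x

theorem Init.left69 {s t : List Bool} {x : ℕ → Bool} (h : Init (s ++ t) x) : Init s x := by
  intro i b hb
  refine h i b ?_
  rw [List.getElem?_append_left]
  · exact hb
  · by_contra hc
    rw [List.getElem?_eq_none (by omega)] at hb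
    cases hb

theorem Av69.mono {F : ZFSet.{0}} {s t t' : List Bool} {n : ℕ} (h : Av69 F s n t) :
    Av69 F s n (t ++ t') := fun C hC x hx hi => h C hC x hx (by
  rw [← List.append_assoc] at hi
  exact hi.left69)

theorem Av69.exists {F : ZFSet.{0}}
    (hfun : ∀ n C D, ZFSet.pair (nat n) C ∈ F → ZFSet.pair (nat n) D ∈ F → C = D)
    (hnwd : ∀ n C, ZFSet.pair (nat n) C ∈ F → NWD C) (s : List Bool) (n : ℕ) (t : List Bool) :
    ∃ t', Av69 F s n (t ++ t') := by
  by_cases h : ∃ C, ZFSet.pair (nat n) C ∈ F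
  · obtain ⟨C, hC⟩ := h
    obtain ⟨t', ht'⟩ := hnwd n C hC (s ++ t)
    refine ⟨t', fun D hD x hx hi => ?_⟩
    rw [hfun n D C hD hC] at hx
    rw [← List.append_assoc] at hi
    exact ht' x hx hi
  · exact ⟨[], fun C hC => absurd ⟨C, hC⟩ h⟩

theorem Av69.list {F : ZFSet.{0}}
    (hfun : ∀ n C D, ZFSet.pair (nat n) C ∈ F → ZFSet.pair (nat n) D ∈ F → C = D)
    (hnwd : ∀ n C, ZFSet.pair (nat n) C ∈ F → NWD C) (l : List (List Bool × ℕ)) :
    ∀ t, ∃ t', ∀ p ∈ l, Av69 F p.1 p.2 (t ++ t') := by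
  induction l with
  | nil => exact fun t => ⟨[], fun p hp => absurd hp (by simp)⟩
  | cons q l ih =>
    intro t
    obtain ⟨t1, h1⟩ := Av69.exists hfun hnwd q.1 q.2 t
    obtain ⟨t2, h2⟩ := ih (t ++ t1)
    refine ⟨t1 ++ t2, fun p hp => ?_⟩
    rw [← List.append_assoc]
    rcases List.mem_cons.1 hp with rfl | hp
    · exact h1.mono
    · exact h2 p hp

/-- the recursion step -/
def Ex69 (F : ZFSet.{0}) (n c c' : ℕ) : Prop :=
  ∃ t, (bl69 t ≠ [] ∧ bl69 c' = bl69 c ++ bl69 t) ∧ ∀ s, (bl69 s).length = (bl69 c).length →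
    ∀ u, bl69 u = bl69 s ++ bl69 t → ∀ n', n' ≤ n → ¬ H169 F n' u

theorem Ex69.exists {F : ZFSet.{0}}
    (hfun : ∀ n C D, ZFSet.pair (nat n) C ∈ F → ZFSet.pair (nat n) D ∈ F → C = D)
    (hnwd : ∀ n C, ZFSet.pair (nat n) C ∈ F → NWD C) (n c : ℕ) : ∃ c', Ex69 F n c c' := by
  have hfin : ({s : List Bool | s.length = (bl69 c).length} ×ˢ {m : ℕ | m ≤ n}).Finite :=
    (List.finite_length_eq Bool _).prod (Set.finite_le_nat n)
  obtain ⟨t', ht'⟩ := Av69.list hfun hnwd hfin.toFinset.toList [false]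
  obtain ⟨t, ht⟩ := exists_bl69 ([false] ++ t')
  obtain ⟨c', hc'⟩ := exists_bl69 (bl69 c ++ bl69 t)
  refine ⟨c', t, ⟨by simp [ht], hc'⟩, ?_⟩
  rintro s hs u hu n' hn' ⟨C, hC, x, hx, hi⟩
  refine ht' (bl69 s, n') ?_ C hC x hx ?_
  · rw [Finset.mem_toList, Set.Finite.mem_toFinset]
    exact ⟨hs, hn'⟩
  · rw [hu, ht] at hi
    exact hi

/-- the tables used for the codes of meager sets -/
def codTabs69 : Set (ℕ → ℕ → ℕ → Prop) :=
  {TB69 true, TB69 false, (fun t _ _ => bl69 t ≠ []), (fun s t u => bl69 u = bl69 s ++ bl69 t),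
    (fun s c _ => (bl69 s).length = (bl69 c).length), (fun a b _ => a ≤ b),
    (fun m l _ => (bl69 m).length = l)}

theorem codTabs69_countable : codTabs69.Countable :=
  ((((((Set.countable_singleton _).insert _).insert _).insert _).insert _).insert _).insert _

theorem tab_Ex69 {N : Set ZFSet.{0}} (hN : IsZFC N) {F : ZFSet.{0}} (hF : F ∈ N)
    (hT : ∀ R ∈ codTabs69, Tab N R) : Tab N (Ex69 F) := by
  have h1 : Tab N (TB69 true) := hT _ (by simp [codTabs69])
  have h2 : Tab N (TB69 false) := hT _ (by simp [codTabs69])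
  have h3 : Tab N fun t _ _ => bl69 t ≠ [] := hT _ (by simp [codTabs69])
  have h4 : Tab N fun s t u => bl69 u = bl69 s ++ bl69 t := hT _ (by simp [codTabs69])
  have h5 : Tab N fun s c _ => (bl69 s).length = (bl69 c).length := hT _ (by simp [codTabs69])
  have h6 : Tab N fun a b _ => a ≤ b := hT _ (by simp [codTabs69])
  have h7 := tab_H169 hN hF h1 h2
  have hDN : DN N fun v => Ex69 F (v 0) (v 1) (v 2) := by
    refine DN.congr (DN.ex (DN.and (DN.and (DN.tab h3 0 0 0) (DN.tab h4 2 0 3))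
      (DN.all69 (DN.imp69 (DN.tab h5 0 3 0) (DN.all69 (DN.imp69 (DN.tab h4 1 2 0)
        (DN.all69 (DN.imp69 (DN.tab h6 0 4 0) (DN.neg (DN.tab h7 0 1 0))))))))))
      fun v => Iff.rfl
  have := hDN.tab3 hN
  simpa only [if_true, show (1 : ℕ) ≠ 0 from one_ne_zero, show (2 : ℕ) ≠ 0 from two_ne_zero,
    show (2 : ℕ) ≠ 1 by decide, if_false] using this

/-- block MG: codes of meager sets (uses `exists_rec`) -/
theorem exists_code : ∃ 𝓡 : Set (ℕ → ℕ → ℕ → Prop), 𝓡.Countable ∧ ∀ N : Set ZFSet.{0}, IsZFC N →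
    HasTabs N 𝓡 → ∀ A, Meager N A → ∃ I w, st I ∈ N ∧ st w ∈ N ∧ Inf I ∧
      ∀ x, st x ∈ A → ¬ Mtch I w x := by
  classical
  obtain ⟨𝓡, hc, hrec⟩ := exists_rec
  refine ⟨𝓡 ∪ codTabs69, hc.union codTabs69_countable, ?_⟩
  rintro N hN hT A ⟨F, hF, hfun, hnwd, hcov⟩
  have hT1 : ∀ R ∈ codTabs69, Tab N R := fun R hR => hT R (Or.inr hR)
  obtain ⟨a₀, ha₀⟩ := exists_bl69 []
  obtain ⟨f, hf0, hfs, hf⟩ := hrec N hN (fun R hR => hT R (Or.inl hR)) (Ex69 F)
    (tab_Ex69 hN hF hT1) (Ex69.exists hfun hnwd) a₀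
  have h1 : Tab N (TB69 true) := hT1 _ (by simp [codTabs69])
  have h8 : Tab N fun m l _ => (bl69 m).length = l := hT1 _ (by simp [codTabs69])
  let I : ℕ → Bool := fun k => decide (∃ n, (bl69 (f n)).length = k)
  let w : ℕ → Bool := fun i => decide (∃ n, (bl69 (f n))[i]? = some true)
  -- prefixes
  have hpre : ∀ m n, m ≤ n → ∃ r, bl69 (f n) = bl69 (f m) ++ r := by
    intro m n hmn
    induction n, hmn using Nat.le_induction with
    | base => exact ⟨[], by simp⟩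
    | succ n hmn ih =>
      obtain ⟨r, hr⟩ := ih
      obtain ⟨t, ⟨-, ht⟩, -⟩ := hfs n
      exact ⟨r ++ bl69 t, by rw [ht, hr, List.append_assoc]⟩
  have hlt : ∀ n, (bl69 (f n)).length < (bl69 (f (n + 1))).length := by
    intro n
    obtain ⟨t, ⟨ht0, ht⟩, -⟩ := hfs n
    rw [ht, List.length_append]
    have := List.length_pos_of_ne_nil ht0
    omega
  have hmono : StrictMono fun n => (bl69 (f n)).length := strictMono_nat_of_lt_succ hlt
  have hw : ∀ n i b, (bl69 (f n))[i]? = some b → w i = b := by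
    intro n i b hb
    have hlen : i < (bl69 (f n)).length := by
      by_contra hc
      rw [List.getElem?_eq_none (by omega)] at hb
      cases hb
    have key : ∀ m, i < (bl69 (f m)).length → (bl69 (f m))[i]? = some b := by
      intro m hm
      rcases le_total m n with h | h
      · obtain ⟨r, hr⟩ := hpre m n h
        rw [hr, List.getElem?_append_left hm] at hb
        exact hb
      · obtain ⟨r, hr⟩ := hpre n m h
        rw [hr, List.getElem?_append_left hlen]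
        exact hb
    cases b with
    | true => simpa [w] using ⟨n, hb⟩
    | false =>
      have : ¬ ∃ m, (bl69 (f m))[i]? = some true := by
        rintro ⟨m, hm⟩
        have hm' : i < (bl69 (f m)).length := by
          by_contra hc
          rw [List.getElem?_eq_none (by omega)] at hm
          cases hm
        rw [key m hm'] at hm
        exact Bool.noConfusion (Option.some.inj hm)
      simpa only [w, decide_eq_false_iff_not] using this
  refine ⟨I, w, ?_, ?_, ?_, ?_⟩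
  · refine st_mem hN (DN.congr (DN.ex (DN.ex (DN.and (DN.ex (DN.tab hf 2 1 0))
      (DN.tab h8 0 2 0)))) fun v => ?_)
    constructor
    · rintro ⟨n, m, ⟨z, h1, h2⟩, h3⟩
      have h1 : m = f n := h1
      have h3 : (bl69 m).length = v 0 := h3
      simp only [I, decide_eq_true_eq]
      exact ⟨n, h1 ▸ h3⟩
    · intro h
      simp only [I, decide_eq_true_eq] at h
      obtain ⟨n, hn⟩ := h
      exact ⟨n, f n, ⟨0, rfl, rfl⟩, hn⟩
  · refine st_mem hN (DN.congr (DN.ex (DN.ex (DN.and (DN.ex (DN.tab hf 2 1 0))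
      (DN.tab h1 0 2 0)))) fun v => ?_)
    constructor
    · rintro ⟨n, m, ⟨z, h1, h2⟩, h3⟩
      have h1 : m = f n := h1
      have h3 : (bl69 m)[v 0]? = some true := h3
      simp only [w, decide_eq_true_eq]
      exact ⟨n, h1 ▸ h3⟩
    · intro h
      simp only [w, decide_eq_true_eq] at h
      obtain ⟨n, hn⟩ := h
      exact ⟨n, f n, ⟨0, rfl, rfl⟩, hn⟩
  · intro m
    exact ⟨(bl69 (f m)).length, hmono.id_le m, by simp [I]⟩
  · intro x hxA hM
    obtain ⟨n, C, hnC, hxC⟩ := hcov _ hxA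
    obtain ⟨l', u, v, hu, huv, -, hIu, hIv, hag⟩ := hM (bl69 (f n)).length
    simp only [I, decide_eq_true_eq] at hIu hIv
    obtain ⟨a, rfl⟩ := hIu
    obtain ⟨b, rfl⟩ := hIv
    have hna : n ≤ a := hmono.le_iff_le.1 hu
    have hab : a < b := hmono.lt_iff_lt.1 huv
    obtain ⟨t, ⟨ht0, ht⟩, hav⟩ := hfs a
    obtain ⟨s, hs⟩ := exists_bl69 (List.ofFn fun i : Fin (bl69 (f a)).length => x i)
    obtain ⟨u, hu'⟩ := exists_bl69 (bl69 s ++ bl69 t)
    refine hav s (by rw [hs, List.length_ofFn]) u hu' n hna ⟨C, hnC, x, hxC, ?_⟩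
    rw [hu']
    have hls : (bl69 s).length = (bl69 (f a)).length := by rw [hs, List.length_ofFn]
    intro i bb hi
    by_cases hia : i < (bl69 s).length
    · rw [List.getElem?_append_left hia, hs, List.getElem?_ofFn, dif_pos (hls ▸ hia)] at hi
      exact Option.some.inj hi
    · push Not at hia
      rw [List.getElem?_append_right hia, hls] at hi
      rw [hls] at hia
      have h9 : (bl69 (f (a + 1)))[i]? = some bb := by
        rw [ht, List.getElem?_append_right hia]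
        exact hi
      have hi2 : i < (bl69 (f (a + 1))).length := by
        by_contra hc
        rw [List.getElem?_eq_none (by omega)] at h9
        cases h9
      rw [hag i hia (lt_of_lt_of_le hi2 (hmono.monotone hab))]
      exact hw _ _ _ h9

end Pool.Agent.Helper60.MA
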