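import Pool.Agent.Helper36.MA.DN

/-!
# Recursion inside a transitive model
-/

set_option linter.unusedSectionVars false
set_option linter.unusedVariables false

namespace Pool.Agent.Helper60.MA

open Pool.Agent.Helper96.Fc Cardinal Ordinal
open Pool.Agent.Helper89.FV (nat om Tab)

/-! ### Derived operations on definable relations -/

section

variable {N : Set ZFSet.{0}} {R R' : (ℕ → ℕ) → Prop}

theorem DN.or69 (h : DN N R) (h' : DN N R') : DN N fun v => R v ∨ R' v :=
  .congr (.neg (.and (.neg h) (.neg h'))) fun v => by tauto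

theorem DN.imp69 (h : DN N R) (h' : DN N R') : DN N fun v => R v → R' v :=
  .congr (.neg (.and h (.neg h'))) fun v => by tauto

theorem DN.all69 (h : DN N R) : DN N fun v => ∀ n, R (cnsn n v) :=
  .congr (.neg (.ex (.neg h))) fun v => by
    constructor
    · intro h1 n
      by_contra h2
      exact h1 ⟨n, h2⟩
    · rintro h1 ⟨n, h2⟩
      exact h2 (h1 n)

end

/-- the list of natural numbers with the code `d` -/
def lst69 (d : ℕ) : List ℕ := Denumerable.ofNat (List ℕ) d

theorem exists_lst69 (l : List ℕ) : ∃ d, lst69 d = l := ⟨Encodable.encode l, by simp [lst69]⟩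

/-- the tables used for the recursion -/
def recTabs69 : Set (ℕ → ℕ → ℕ → Prop) :=
  {(fun d i a => (lst69 d)[i]? = some a), (fun d i a => (lst69 d)[i + 1]? = some a),
    (fun i j _ => i < j), (fun k _ _ => k = 0)} ∪
    Set.range fun a₀ : ℕ => fun d (_ _ : ℕ) => (lst69 d)[0]? = some a₀

theorem recTabs69_countable : recTabs69.Countable :=
  Set.Countable.union ((((Set.countable_singleton _).insert _).insert _).insert _)
    (Set.countable_range _)

/-- block RC: recursion -/
theorem exists_rec : ∃ 𝓡 : Set (ℕ → ℕ → ℕ → Prop), 𝓡.Countable ∧ ∀ N : Set ZFSet.{0}, IsZFC N →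
    HasTabs N 𝓡 → ∀ R : ℕ → ℕ → ℕ → Prop, Tab N R → (∀ n a, ∃ b, R n a b) → ∀ a₀,
      ∃ f : ℕ → ℕ, f 0 = a₀ ∧ (∀ n, R n (f n) (f (n + 1))) ∧
        Tab N fun n m k => m = f n ∧ k = 0 := by
  classical
  refine ⟨recTabs69, recTabs69_countable, fun N hN hT R hR hex a₀ => ?_⟩
  let f : ℕ → ℕ := fun n => Nat.rec a₀ (fun i a => Nat.find (hex i a)) n
  have hf0 : f 0 = a₀ := rfl
  have hfs : ∀ n, f (n + 1) = Nat.find (hex n (f n)) := fun n => rfl
  refine ⟨f, hf0, fun n => by rw [hfs]; exact Nat.find_spec (hex n (f n)), ?_⟩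
  have h1 : Tab N fun d i a => (lst69 d)[i]? = some a := hT _ (by left; simp)
  have h2 : Tab N fun d i a => (lst69 d)[i + 1]? = some a := hT _ (by left; simp)
  have h3 : Tab N fun i j _ => i < j := hT _ (by left; simp)
  have h4 : Tab N fun k _ _ => k = 0 := hT _ (by left; simp)
  have h5 : Tab N fun d _ _ => (lst69 d)[0]? = some a₀ := hT _ (by right; exact ⟨a₀, rfl⟩)
  -- the characterisation of `f`
  have key : ∀ n m, m = f n ↔ ∃ d, (lst69 d)[0]? = some a₀ ∧ (lst69 d)[n]? = some m ∧
      ∀ i, i < n → ∃ a, ∃ b, (lst69 d)[i]? = some a ∧ (lst69 d)[i + 1]? = some b ∧ R i a b ∧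
        ∀ b', b' < b → ¬ R i a b' := by
    intro n m
    constructor
    · rintro rfl
      obtain ⟨d, hd⟩ := exists_lst69 (List.ofFn fun i : Fin (n + 1) => f i)
      have hg : ∀ i, i ≤ n → (lst69 d)[i]? = some (f i) := by
        intro i hi
        rw [hd, List.getElem?_ofFn, dif_pos (Nat.lt_succ_of_le hi)]
      refine ⟨d, hg 0 (Nat.zero_le _), hg n le_rfl, fun i hi => ⟨f i, f (i + 1), hg i hi.le,
        hg (i + 1) hi, by rw [hfs]; exact Nat.find_spec (hex i (f i)), fun b' hb' => ?_⟩⟩
      rw [hfs] at hb'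
      exact Nat.find_min (hex i (f i)) hb'
    · rintro ⟨d, hd0, hdn, hd⟩
      have hg : ∀ i, i ≤ n → (lst69 d)[i]? = some (f i) := by
        intro i
        induction i with
        | zero => exact fun _ => hd0
        | succ i ih =>
          intro hi
          obtain ⟨a, b, ha, hb, hab, hmin⟩ := hd i hi
          have : a = f i := by
            have := ih (by omega)
            rw [ha] at this
            exact Option.some.inj this
          subst this
          rw [hb, hfs]
          congr 1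
          symm
          rw [Nat.find_eq_iff]
          exact ⟨hab, hmin⟩
      have := hg n le_rfl
      rw [hdn] at this
      exact Option.some.inj this
  have hDN : DN N fun v => (∃ d, ((lst69 d)[0]? = some a₀ ∧ (lst69 d)[v 0]? = some (v 1)) ∧
      ∀ i, i < v 0 → ∃ a, ∃ b, ((lst69 d)[i]? = some a ∧ (lst69 d)[i + 1]? = some b) ∧ R i a b ∧
        ∀ b', b' < b → ¬ R i a b') ∧ v 2 = 0 := by
    refine DN.congr (DN.and (DN.ex (DN.and (DN.and (DN.tab h5 0 0 0) (DN.tab h1 0 1 2))
      (DN.all69 (DN.imp69 (DN.tab h3 0 2 0) (DN.ex (DN.ex (DN.and (DN.and (DN.tab h1 3 2 1)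
        (DN.tab h2 3 2 0)) (DN.and (DN.tab hR 2 1 0) (DN.all69 (DN.imp69 (DN.tab h3 0 1 0)
          (DN.neg (DN.tab hR 3 2 0))))))))))))
      (DN.tab h4 2 0 0)) fun v => Iff.rfl
  have := hDN.tab3 hN
  simp only [if_true] at this
  refine cast ?_ this
  congr 1
  funext n m k
  simp only [show (1 : ℕ) ≠ 0 from one_ne_zero, show (2 : ℕ) ≠ 0 from two_ne_zero,
    show (2 : ℕ) ≠ 1 by decide, if_false]
  rw [key n m]
  simp only [and_assoc]

end Pool.Agent.Helper60.MA
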